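import Pool.Agent.H5.FL.Stm

set_option autoImplicit false

open MeasureTheory ProbabilityTheory
open scoped NNReal ENNReal

universe u

namespace H78.FL

open H5.FL

theorem clock_measurable {N : ℕ} {Ω : Type u} (m : MeasurableSpace Ω) (J : ℝ≥0 → Ω → Fin N)
    (t : ℝ≥0) (h : Measurable fun p : Set.Iic t × Ω => J p.1 p.2) : Measurable (clock J t) := by
  refine measurable_pi_lambda _ (fun j => ?_)
  have hJ : Measurable fun p : ℝ × Ω => J (min p.1.toNNReal t) p.2 := by
    have hm : Measurable fun p : ℝ × Ω =>
        ((⟨min p.1.toNNReal t, Set.mem_Iic.mpr (min_le_right _ _)⟩ : Set.Iic t), p.2) := by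
      refine Measurable.prodMk (Measurable.subtype_mk ?_) measurable_snd
      exact (measurable_fst.real_toNNReal).min measurable_const
    exact h.comp hm
  have hF : Measurable fun p : ℝ × Ω => if J (min p.1.toNNReal t) p.2 = j then (1 : ℝ) else 0 := by
    refine Measurable.ite ?_ measurable_const measurable_const
    exact hJ (measurableSet_singleton j)
  have hG := (StronglyMeasurable.integral_prod_left' (μ := volume.restrict (Set.Ioc (0 : ℝ) t))
    hF.stronglyMeasurable).measurable
  have he : (fun ω => clock J t ω j) = fun ω => ∫ s in Set.Ioc (0 : ℝ) t,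
      (if J (min s.toNNReal t) ω = j then (1 : ℝ) else 0) := by
    funext ω
    unfold clock
    rw [intervalIntegral.integral_of_le (NNReal.coe_nonneg t)]
    refine setIntegral_congr_fun measurableSet_Ioc ?_
    intro s hs
    have hs2 : s.toNNReal ≤ t := by
      rw [Real.toNNReal_le_iff_le_coe]; exact hs.2
    simp only [min_eq_left hs2]
  rw [he]
  exact hG

theorem J_joint {N : ℕ} {Ω : Type u} [mΩ : MeasurableSpace Ω] (obs : Filtration ℝ≥0 mΩ)
    (J : ℝ≥0 → Ω → Fin N) (h : IsProgressive obs J) :
    Measurable fun p : ℝ≥0 × Ω => J p.1 p.2 := by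
  have hn : ∀ n : ℕ, Measurable fun p : ℝ≥0 × Ω => J (min p.1 n) p.2 := by
    intro n
    have h2 : Measurable[Subtype.instMeasurableSpace.prod mΩ]
        fun p : Set.Iic (n : ℝ≥0) × Ω => J p.1 p.2 := by
      refine (h n).mono ?_ le_rfl
      exact sup_le_sup le_rfl (MeasurableSpace.comap_mono (obs.le _))
    have hm : Measurable fun p : ℝ≥0 × Ω =>
        ((⟨min p.1 n, Set.mem_Iic.mpr (min_le_right _ _)⟩ : Set.Iic (n : ℝ≥0)), p.2) := by
      refine Measurable.prodMk (Measurable.subtype_mk ?_) measurable_snd
      exact measurable_fst.min measurable_const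
    exact h2.comp hm
  refine measurable_to_countable' (fun j => ?_)
  have hs : (fun p : ℝ≥0 × Ω => J p.1 p.2) ⁻¹' {j} =
      ⋃ n : ℕ, ({p : ℝ≥0 × Ω | p.1 ≤ n} ∩ (fun p : ℝ≥0 × Ω => J (min p.1 n) p.2) ⁻¹' {j}) := by
    ext p
    simp only [Set.mem_preimage, Set.mem_singleton_iff, Set.mem_iUnion, Set.mem_inter_iff,
      Set.mem_ofPred_eq]
    constructor
    · intro hp
      obtain ⟨n, hn⟩ := exists_nat_ge p.1
      exact ⟨n, hn, by rw [min_eq_left hn]; exact hp⟩
    · rintro ⟨n, hn, hp⟩
      rwa [min_eq_left hn] at hp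
  rw [hs]
  refine MeasurableSet.iUnion (fun n => ?_)
  exact (measurableSet_le measurable_fst measurable_const).inter (hn n (measurableSet_singleton j))

theorem t_CLK : S_CLK.{u} := by
  intro N μ Ω mΩ P _ π
  have hJ := J_joint π.obs π.J π.J_prog
  refine ⟨fun t => ?_, fun ω => ?_, fun ω j => ?_, hJ, fun t => ?_, fun t ω => ?_⟩
  · exact clock_measurable (π.obs t) π.J t (π.J_prog t)
  · refine continuous_pi (fun j => ?_)
    have hJω : Measurable fun s : ℝ => π.J s.toNNReal ω :=
      hJ.comp (measurable_real_toNNReal.prodMk measurable_const)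
    have hF : Measurable fun s : ℝ => if π.J s.toNNReal ω = j then (1 : ℝ) else 0 :=
      Measurable.ite (hJω (measurableSet_singleton j)) measurable_const measurable_const
    have hint : ∀ a b : ℝ, IntervalIntegrable
        (fun s : ℝ => if π.J s.toNNReal ω = j then (1 : ℝ) else 0) volume a b := by
      intro a b
      refine (intervalIntegrable_const (c := (1 : ℝ))).mono_fun hF.aestronglyMeasurable ?_
      refine Filter.Eventually.of_forall (fun s => ?_)
      simp only
      split_ifs <;> simp
    exact (intervalIntegral.continuous_primitive hint 0).comp NNReal.continuous_coe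
  · simp [clock]
  · exact IsProgressive.adapted π.J_prog t
  · funext j
    have hN : (N : ℝ) ≠ 0 := by
      have : 0 < N := j.pos
      positivity
    simp only [post, zz, sm, lin]
    rw [← Finset.mul_sum]
    rw [mul_div_mul_left _ _ (one_div_ne_zero hN)]

end H78.FL
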