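import Pool.Agent.H5.FL.Stm

set_option autoImplicit false

open MeasureTheory ProbabilityTheory
open scoped NNReal ENNReal

universe u

namespace H78.FL

open H5.FL

theorem t_HIT (hCLK : S_CLK.{u}) : S_HIT.{u} := by
  intro N hN ε hε μ Ω mΩ P _ π ω
  have hNpos : (0 : ℝ) < N := by positivity
  obtain ⟨-, hcl, hc0, -, -, -⟩ := hCLK N μ Ω P π
  have hzz : ∀ j, Continuous fun t : ℝ≥0 => zz μ π.X π.J t ω j := by
    intro j
    unfold zz
    have h1 : Continuous fun t : ℝ≥0 => π.X t ω j := (continuous_apply j).comp (π.X_cont ω)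
    have h2 : Continuous fun t : ℝ≥0 => clock π.J t ω j := (continuous_apply j).comp (hcl ω)
    exact continuous_const.mul
      (Real.continuous_exp.comp ((continuous_const.mul h1).sub (continuous_const.mul h2)))
  have hzpos : ∀ (t : ℝ≥0) j, 0 < zz μ π.X π.J t ω j := by
    intro t j
    unfold zz
    positivity
  have : Nonempty (Fin N) := ⟨⟨0, by omega⟩⟩
  have hspos : ∀ t : ℝ≥0, 0 < ∑ i, zz μ π.X π.J t ω i := fun t =>
    Finset.sum_pos (fun i _ => hzpos t i) Finset.univ_nonempty
  have hpost : ∀ j, Continuous fun t : ℝ≥0 => post μ π.X π.J t ω j := by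
    intro j
    unfold post
    exact (hzz j).div (continuous_finsetSum _ (fun i _ => hzz i)) (fun t => (hspos t).ne')
  have hlt : ∀ t : ℝ≥0, (t : ℝ≥0∞) < stopT ε π ω → ∀ j, post μ π.X π.J t ω j < 1 - ε := by
    intro t ht j
    by_contra hcon
    push Not at hcon
    exact absurd (iInf₂_le (f := fun (t : ℝ≥0) (_ : ∃ j, 1 - ε ≤ post μ π.X π.J t ω j) =>
      (t : ℝ≥0∞)) t ⟨j, hcon⟩) (not_le.mpr ht)
  refine ⟨hlt, fun hfin => ?_⟩
  set S : Set ℝ≥0 := {t | ∃ j, 1 - ε ≤ post μ π.X π.J t ω j} with hS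
  have hSc : IsClosed S := by
    have : S = ⋃ j, {t : ℝ≥0 | 1 - ε ≤ post μ π.X π.J t ω j} := by
      ext t; simp [hS]
    rw [this]
    exact isClosed_iUnion_of_finite (fun j => isClosed_le continuous_const (hpost j))
  have hSne : S.Nonempty := by
    by_contra hemp
    rw [Set.not_nonempty_iff_eq_empty] at hemp
    apply hfin
    unfold stopT
    refine iInf₂_eq_top.mpr ?_
    intro t ht
    have : t ∈ S := ht
    rw [hemp] at this
    exact absurd this (Set.notMem_empty t)
  have hinf : stopT ε π ω = ((sInf S : ℝ≥0) : ℝ≥0∞) := by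
    rw [ENNReal.coe_sInf hSne]
    rfl
  have hTmem : sInf S ∈ S := hSc.csInf_mem hSne (OrderBot.bddBelow S)
  have hT : (stopT ε π ω).toNNReal = sInf S := by
    rw [hinf, ENNReal.toNNReal_coe]
  rw [hT]
  have hle : ∀ i, post μ π.X π.J (sInf S) ω i ≤ 1 - ε := by
    intro i
    rcases eq_or_ne (sInf S) 0 with h0 | hne0
    · rw [h0]
      have hz0 : ∀ k, zz μ π.X π.J 0 ω k = 1 / (N : ℝ) := by
        intro k
        unfold zz
        rw [π.X_zero, hc0]
        simp
      unfold post
      simp only [hz0, Finset.sum_const, Finset.card_univ, Fintype.card_fin, nsmul_eq_mul]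
      rw [mul_one_div_cancel hNpos.ne', div_one]
      exact hε
    · have hpos : 0 < sInf S := pos_iff_ne_zero.mpr hne0
      have : (nhdsWithin (sInf S) (Set.Iio (sInf S))).NeBot :=
        nhdsLT_neBot_of_exists_lt ⟨0, hpos⟩
      refine le_of_tendsto ((hpost i).continuousAt.tendsto.mono_left
        (nhdsWithin_le_nhds (s := Set.Iio (sInf S)))) ?_
      filter_upwards [self_mem_nhdsWithin] with t ht
      apply (hlt t _ i).le
      rw [hinf]
      exact_mod_cast ht
  refine ⟨?_, hle⟩
  obtain ⟨j, hj⟩ := hTmem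
  exact ⟨j, le_antisymm (hle j) hj⟩

end H78.FL
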